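import Mathlib

set_option autoImplicit false

namespace Pool.Agent.Helper80.E67678


/-- `v = ∑^D_{i} α i • x i`: for every `ε > 0` there is `d ∈ D` with
`‖v - ∑ i ∈ d', α i • x i‖ < ε` for all `d' ∈ D` containing `d`. -/
def DSum {I E : Type} [NormedAddCommGroup E] [NormedSpace ℝ E] (D : Set (Finset I)) (x : I → E)
    (α : I → ℝ) (v : E) : Prop :=
  ∀ ε > 0, ∃ d ∈ D, ∀ d' ∈ D, d ⊆ d' → ‖v - ∑ i ∈ d', α i • x i‖ < ε

/-- `x` is an `(I, D)`-conditional basis: every vector has exactly one expansion. -/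
def IsCondBasis {I E : Type} [NormedAddCommGroup E] [NormedSpace ℝ E] (D : Set (Finset I))
    (x : I → E) : Prop :=
  ∀ v : E, ∃! α : I → ℝ, DSum D x α v

end Pool.Agent.Helper80.E67678
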