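import Pool.Agent.Helper80.E67678.Defs

set_option autoImplicit false

open Filter Topology Set
open scoped Cardinal

namespace Pool.Agent.Helper80.E67678

section general
variable {I E : Type} [NormedAddCommGroup E] [NormedSpace ℝ E] {D : Set (Finset I)} {x : I → E}

lemma DSum.add (hD : ∀ d ∈ D, ∀ d' ∈ D, ∃ d'' ∈ D, d ⊆ d'' ∧ d' ⊆ d'') {α β : I → ℝ} {v w : E}
    (h1 : DSum D x α v) (h2 : DSum D x β w) : DSum D x (fun i => α i + β i) (v + w) := by
  intro ε hε
  obtain ⟨d1, hd1, h1⟩ := h1 (ε / 2) (by linarith)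
  obtain ⟨d2, hd2, h2⟩ := h2 (ε / 2) (by linarith)
  obtain ⟨d, hd, hs1, hs2⟩ := hD d1 hd1 d2 hd2
  refine ⟨d, hd, fun d' hd' hdd => ?_⟩
  have e1 := h1 d' hd' (hs1.trans hdd)
  have e2 := h2 d' hd' (hs2.trans hdd)
  have : v + w - ∑ i ∈ d', (α i + β i) • x i =
      (v - ∑ i ∈ d', α i • x i) + (w - ∑ i ∈ d', β i • x i) := by
    simp only [add_smul, Finset.sum_add_distrib]
    abel
  rw [this]
  calc _ ≤ ‖v - ∑ i ∈ d', α i • x i‖ + ‖w - ∑ i ∈ d', β i • x i‖ := norm_add_le _ _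
    _ < ε := by linarith

lemma DSum.smul {α : I → ℝ} {v : E} (c : ℝ)
    (h1 : DSum D x α v) : DSum D x (fun i => c * α i) (c • v) := by
  intro ε hε
  obtain ⟨d, hd, h1⟩ := h1 (ε / (|c| + 1)) (by positivity)
  refine ⟨d, hd, fun d' hd' hdd => ?_⟩
  have e1 := h1 d' hd' hdd
  have : c • v - ∑ i ∈ d', (c * α i) • x i = c • (v - ∑ i ∈ d', α i • x i) := by
    simp only [mul_smul, smul_sub, Finset.smul_sum]
  rw [this, norm_smul, Real.norm_eq_abs]
  rw [lt_div_iff₀ (by positivity)] at e1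
  have := norm_nonneg (v - ∑ i ∈ d', α i • x i)
  nlinarith [abs_nonneg c]

lemma DSum.unique (hD : ∀ d ∈ D, ∀ d' ∈ D, ∃ d'' ∈ D, d ⊆ d'' ∧ d' ⊆ d'')
    {α : I → ℝ} {v w : E} (h1 : DSum D x α v) (h2 : DSum D x α w) : v = w := by
  by_contra hne
  have hpos : 0 < ‖v - w‖ := norm_pos_iff.mpr (sub_ne_zero.mpr hne)
  obtain ⟨d1, hd1, h1⟩ := h1 (‖v - w‖ / 2) (by linarith)
  obtain ⟨d2, hd2, h2⟩ := h2 (‖v - w‖ / 2) (by linarith)
  obtain ⟨d, hd, hs1, hs2⟩ := hD d1 hd1 d2 hd2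
  have e1 := h1 d hd hs1
  have e2 := h2 d hd hs2
  have : v - w = (v - ∑ i ∈ d, α i • x i) - (w - ∑ i ∈ d, α i • x i) := by abel
  have h3 := norm_sub_le (v - ∑ i ∈ d, α i • x i) (w - ∑ i ∈ d, α i • x i)
  rw [← this] at h3
  linarith

lemma HasSum.dsum (hD : ∀ s : Finset I, ∃ d ∈ D, s ⊆ d) {α : I → ℝ} {v : E}
    (h : HasSum (fun i => α i • x i) v) : DSum D x α v := by
  intro ε hε
  have h1 := (Metric.tendsto_nhds.mp h) ε hε
  obtain ⟨s, hs⟩ := eventually_atTop.mp h1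
  obtain ⟨d, hd, hsd⟩ := hD s
  refine ⟨d, hd, fun d' _ hdd => ?_⟩
  have := hs d' (hsd.trans hdd)
  rwa [dist_eq_norm, norm_sub_rev] at this

end general

/-- bounded finite sums imply summability -/
lemma summable_of_bdd {ι : Type} (b : ι → ℝ) (C : ℝ) (h : ∀ g : Finset ι, |∑ i ∈ g, b i| ≤ C) :
    Summable b := by
  classical
  rw [← summable_abs_iff]
  apply summable_of_sum_le (c := 2 * C) (fun _ => abs_nonneg _)
  intro u
  have h1 : ∑ i ∈ u, |b i| = (∑ i ∈ u.filter (fun i => 0 ≤ b i), b i) -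
      ∑ i ∈ u.filter (fun i => ¬ 0 ≤ b i), b i := by
    rw [← Finset.sum_filter_add_sum_filter_not u (fun i => 0 ≤ b i), sub_eq_add_neg,
      ← Finset.sum_neg_distrib]
    congr 1
    · apply Finset.sum_congr rfl
      intro i hi
      exact abs_of_nonneg (Finset.mem_filter.mp hi).2
    · apply Finset.sum_congr rfl
      intro i hi
      exact abs_of_neg (not_le.mp (Finset.mem_filter.mp hi).2)
  rw [h1]
  have h2 := le_abs_self (∑ i ∈ u.filter (fun i => 0 ≤ b i), b i)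
  have h3 := neg_abs_le (∑ i ∈ u.filter (fun i => ¬ 0 ≤ b i), b i)
  have h4 := h (u.filter (fun i => 0 ≤ b i))
  have h5 := h (u.filter (fun i => ¬ 0 ≤ b i))
  linarith

/-- balancing -/
lemma balance {K : Type} (θ : K → ℤ) (B : Set K) (hP : {κ ∈ B | θ κ = 1}.Infinite)
    (hN : {κ ∈ B | θ κ = -1}.Infinite) (s : ℤ) (T : Set K) (hT : T.Finite) :
    ∃ g : Finset K, (∀ κ ∈ g, κ ∈ B ∧ κ ∉ T ∧ |θ κ| = 1) ∧ ∑ κ ∈ g, θ κ = s ∧
      g.card = s.natAbs ∧ ((∀ κ ∈ g, θ κ = 1) ∨ (∀ κ ∈ g, θ κ = -1)) := by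
  rcases le_total 0 s with hs | hs
  · obtain ⟨g, hg, hgc⟩ := (hP.sdiff hT).exists_subset_card_eq s.natAbs
    have h1 : ∀ κ ∈ g, θ κ = 1 := fun κ hκ => (hg hκ).1.2
    refine ⟨g, fun κ hκ => ⟨(hg hκ).1.1, (hg hκ).2, by rw [h1 κ hκ]; rfl⟩, ?_, hgc, Or.inl h1⟩
    rw [Finset.sum_congr rfl h1, Finset.sum_const, hgc, nsmul_eq_mul, mul_one]
    exact Int.natAbs_of_nonneg hs
  · obtain ⟨g, hg, hgc⟩ := (hN.sdiff hT).exists_subset_card_eq s.natAbs
    have h1 : ∀ κ ∈ g, θ κ = -1 := fun κ hκ => (hg hκ).1.2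
    refine ⟨g, fun κ hκ => ⟨(hg hκ).1.1, (hg hκ).2, by rw [h1 κ hκ]; rfl⟩, ?_, hgc, Or.inr h1⟩
    rw [Finset.sum_congr rfl h1, Finset.sum_const, hgc, nsmul_eq_mul]
    have := Int.ofNat_natAbs_of_nonpos hs
    omega

/-- The key one-fibre lemma. -/
lemma fibre {K : Type} (θ : K → ℤ) (B : Set K) (hP : {κ ∈ B | θ κ = 1}.Infinite)
    (hN : {κ ∈ B | θ κ = -1}.Infinite) (a : K → ℝ)
    (h : ∀ ε > 0, ∃ F : Finset K, ∀ g : Finset K, (∀ κ ∈ g, κ ∈ B ∧ κ ∉ F) →
      ∑ κ ∈ g, θ κ = 0 → |∑ κ ∈ g, a κ| ≤ ε) :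
    ∃ c : ℝ, Summable (B.indicator (fun κ => a κ - c * θ κ)) := by
  classical
  set P := {κ ∈ B | θ κ = 1} with hPd
  set N := {κ ∈ B | θ κ = -1} with hNd
  have : NeBot (cofinite ⊓ 𝓟 P) := hP.cofinite_inf_principal_neBot
  -- pairs
  have pair : ∀ ε > 0, ∃ F : Finset K, ∀ κ ∈ P, κ ∉ F → ∀ ν ∈ N, ν ∉ F → |a κ + a ν| ≤ ε := by
    intro ε hε
    obtain ⟨F, hF⟩ := h ε hε
    refine ⟨F, fun κ hκ hκF ν hν hνF => ?_⟩
    have hne : κ ≠ ν := by
      intro he
      have h1 := hκ.2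
      have h2 := hν.2
      rw [he, h2] at h1
      norm_num at h1
    have := hF {κ, ν} (by
      intro μ hμ
      rw [Finset.mem_insert, Finset.mem_singleton] at hμ
      rcases hμ with rfl | rfl
      · exact ⟨hκ.1, hκF⟩
      · exact ⟨hν.1, hνF⟩) (by rw [Finset.sum_pair hne, hκ.2, hν.2]; norm_num)
    rwa [Finset.sum_pair hne] at this
  have hcau : Cauchy (map a (cofinite ⊓ 𝓟 P)) := by
    rw [Metric.cauchy_iff]
    refine ⟨inferInstance, fun ε hε => ?_⟩
    obtain ⟨F, hF⟩ := pair (ε / 3) (by linarith)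
    obtain ⟨ν, hν, hνF⟩ := (hN.sdiff F.finite_toSet).nonempty
    refine ⟨a '' (P \ F), image_mem_map ?_, ?_⟩
    · rw [mem_inf_principal]
      filter_upwards [F.finite_toSet.compl_mem_cofinite] with κ hκ hκP
      exact ⟨hκP, hκ⟩
    · rintro _ ⟨κ, hκ, rfl⟩ _ ⟨κ', hκ', rfl⟩
      have h1 := hF κ hκ.1 hκ.2 ν hν hνF
      have h2 := hF κ' hκ'.1 hκ'.2 ν hν hνF
      rw [Real.dist_eq]
      have : a κ - a κ' = (a κ + a ν) - (a κ' + a ν) := by ring
      rw [this]
      have := abs_sub (a κ + a ν) (a κ' + a ν)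
      linarith
  obtain ⟨c, hc⟩ := CompleteSpace.complete hcau
  -- values on `P` and `N` are close to `c` and `-c`
  have hPc : ∀ δ > 0, ∃ F : Finset K, ∀ κ ∈ P, κ ∉ F → |a κ - c| ≤ δ := by
    intro δ hδ
    have h1 : ∀ᶠ κ in cofinite ⊓ 𝓟 P, dist (a κ) c < δ := hc (Metric.ball_mem_nhds c hδ)
    rw [eventually_inf_principal, eventually_cofinite] at h1
    refine ⟨h1.toFinset, fun κ hκ hκF => ?_⟩
    rw [Set.Finite.mem_toFinset] at hκF
    simp only [mem_ofPred_eq, not_not] at hκF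
    have := hκF hκ
    rw [Real.dist_eq] at this
    exact this.le
  have hNc : ∀ δ > 0, ∃ F : Finset K, ∀ ν ∈ N, ν ∉ F → |a ν + c| ≤ δ := by
    intro δ hδ
    obtain ⟨F1, hF1⟩ := hPc (δ / 2) (by linarith)
    obtain ⟨F2, hF2⟩ := pair (δ / 2) (by linarith)
    obtain ⟨κ, hκ, hκF⟩ := (hP.sdiff (F1 ∪ F2).finite_toSet).nonempty
    simp only [Finset.coe_union, mem_union, Finset.mem_coe, not_or] at hκF
    refine ⟨F2, fun ν hν hνF => ?_⟩
    have h1 := hF1 κ hκ hκF.1
    have h2 := hF2 κ hκ hκF.2 ν hν hνF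
    have : a ν + c = (a κ + a ν) - (a κ - c) := by ring
    rw [this]
    have := abs_sub (a κ + a ν) (a κ - c)
    linarith
  refine ⟨c, ?_⟩
  rw [summable_iff_vanishing_norm]
  intro ε hε
  obtain ⟨F, hF⟩ := h (ε / 2) (by linarith)
  refine ⟨F, fun t ht => ?_⟩
  -- restrict to `B`
  set g := t.filter (fun κ => κ ∈ B) with hg
  have hsum : ∑ κ ∈ t, B.indicator (fun κ => a κ - c * θ κ) κ = ∑ κ ∈ g, (a κ - c * θ κ) := by
    rw [hg, Finset.sum_filter]
    apply Finset.sum_congr rfl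
    intro κ _
    simp [indicator]
  rw [hsum]
  set s := ∑ κ ∈ g, θ κ with hs
  set δ := ε / 4 / (|(s : ℝ)| + 1) with hδ
  have hδpos : 0 < δ := by positivity
  obtain ⟨F1, hF1⟩ := hPc δ hδpos
  obtain ⟨F2, hF2⟩ := hNc δ hδpos
  obtain ⟨g', hg', hsum', hcard, hsgn⟩ := balance θ B hP hN (-s)
    (↑(F ∪ F1 ∪ F2 ∪ g) : Set K) (Finset.finite_toSet _)
  have hdisj : Disjoint g g' := by
    rw [Finset.disjoint_left]
    intro κ hκ hκ'
    apply (hg' κ hκ').2.1
    simp [hκ]
  have hg'F : ∀ κ ∈ g', κ ∉ F ∧ κ ∉ F1 ∧ κ ∉ F2 := by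
    intro κ hκ
    have := (hg' κ hκ).2.1
    simp only [Finset.coe_union, mem_union, Finset.mem_coe, not_or] at this
    tauto
  have h1 := hF (g ∪ g') (by
    intro κ hκ
    rw [Finset.mem_union] at hκ
    rcases hκ with hκ | hκ
    · rw [hg, Finset.mem_filter] at hκ
      exact ⟨hκ.2, fun hcon => (Finset.disjoint_left.mp ht hκ.1) hcon⟩
    · exact ⟨(hg' κ hκ).1, (hg'F κ hκ).1⟩) (by
    rw [Finset.sum_union hdisj, hsum', ← hs]; ring)
  rw [Finset.sum_union hdisj] at h1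
  have h2 : |∑ κ ∈ g', (a κ - c * θ κ)| ≤ ε / 4 := by
    have h3 : ∀ κ ∈ g', |a κ - c * θ κ| ≤ δ := by
      intro κ hκ
      rcases hsgn with h4 | h4
      · have h5 := h4 κ hκ
        rw [h5]
        have := hF1 κ ⟨(hg' κ hκ).1, h5⟩ (hg'F κ hκ).2.1
        simpa using this
      · have h5 := h4 κ hκ
        rw [h5]
        have := hF2 κ ⟨(hg' κ hκ).1, h5⟩ (hg'F κ hκ).2.2
        simpa using this
    calc |∑ κ ∈ g', (a κ - c * θ κ)| ≤ ∑ κ ∈ g', |a κ - c * θ κ| := Finset.abs_sum_le_sum_abs _ _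
      _ ≤ ∑ κ ∈ g', δ := Finset.sum_le_sum h3
      _ = |(s : ℝ)| * δ := by
        rw [Finset.sum_const, hcard, nsmul_eq_mul, Int.natAbs_neg, Nat.cast_natAbs, Int.cast_abs]
      _ ≤ ε / 4 := by
        rw [hδ, mul_div_assoc', div_le_iff₀ (by positivity)]
        nlinarith [abs_nonneg (s : ℝ)]
  have h3 : ∑ κ ∈ g', (a κ - c * θ κ) = ∑ κ ∈ g', a κ + c * s := by
    rw [Finset.sum_sub_distrib, ← Finset.mul_sum, ← Int.cast_sum, hsum']
    push_cast
    ring
  have h4 : ∑ κ ∈ g, (a κ - c * θ κ) = ∑ κ ∈ g, a κ - c * s := by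
    rw [Finset.sum_sub_distrib, ← Finset.mul_sum, ← Int.cast_sum, ← hs]
  rw [Real.norm_eq_abs, h4]
  rw [h3] at h2
  have : ∑ κ ∈ g, a κ - c * s = (∑ κ ∈ g, a κ + ∑ κ ∈ g', a κ) - (∑ κ ∈ g', a κ + c * s) := by ring
  rw [this]
  have := abs_sub (∑ κ ∈ g, a κ + ∑ κ ∈ g', a κ) (∑ κ ∈ g', a κ + c * s)
  linarith

/-! ### the abstract construction -/

section abstract_part

variable {E₁ K : Type} [NormedAddCommGroup E₁] [NormedSpace ℝ E₁] 

/-- the vectors of the system -/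
def xvec (θ : K → ℤ) (w : E₁ × K → E₁) (i : E₁ × K) : ℝ × E₁ := ((θ i.2 : ℝ), w i)

open Classical in
/-- the fibre of a finite set -/
noncomputable def fib (d : Finset (E₁ × K)) (h : E₁) : Finset K :=
  d.preimage (Prod.mk h) (Prod.mk_right_injective h).injOn

omit [NormedAddCommGroup E₁] [NormedSpace ℝ E₁] in
lemma mem_fib (d : Finset (E₁ × K)) (h : E₁) (κ : K) : κ ∈ fib d h ↔ (h, κ) ∈ d := by
  simp [fib]

open Classical in
/-- the directed family -/
def DD (θ : K → ℤ) (κ₀ : K) (B : E₁ → Set K) : Set (Finset (E₁ × K)) :=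
  {d | ∀ h, (h, κ₀) ∈ d → ∑ κ ∈ (fib d h).filter (fun κ => κ ∈ B h), θ κ = 0}

/-- the conditions on the fibres -/
structure Good (θ : K → ℤ) (κ₀ : K) (B : E₁ → Set K) (H : Set E₁) : Prop where
  k0 : ∀ h, κ₀ ∉ B h
  pos : ∀ h ∈ H, {κ ∈ B h | θ κ = 1}.Infinite
  neg : ∀ h ∈ H, {κ ∈ B h | θ κ = -1}.Infinite
  emp : ∀ h ∉ H, B h = ∅

variable {θ : K → ℤ} {κ₀ : K} {B : E₁ → Set K} {H : Set E₁}

open Classical in
omit [NormedAddCommGroup E₁] [NormedSpace ℝ E₁] in
/-- every finite set is contained in a member of the family -/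
lemma DD_cofinal (hG : Good θ κ₀ B H) (s : Finset (E₁ × K)) : ∃ d ∈ DD θ κ₀ B, s ⊆ d := by
  have h1 : ∀ h : E₁, ∃ g : Finset K, (∀ κ ∈ g, κ ∈ B h ∧ κ ∉ fib s h) ∧
      ∑ κ ∈ g, θ κ = -(∑ κ ∈ (fib s h).filter (fun κ => κ ∈ B h), θ κ) := by
    intro h
    by_cases hh : h ∈ H
    · obtain ⟨g, hg, hg2, -⟩ := balance θ (B h) (hG.pos h hh) (hG.neg h hh)
        (-(∑ κ ∈ (fib s h).filter (fun κ => κ ∈ B h), θ κ)) (fib s h : Set K)
        (Finset.finite_toSet _)
      exact ⟨g, fun κ hκ => ⟨(hg κ hκ).1, by simpa using (hg κ hκ).2.1⟩, hg2⟩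
    · refine ⟨∅, by simp, ?_⟩
      rw [hG.emp h hh]
      simp
  choose g hg hg2 using h1
  refine ⟨s ∪ (s.image Prod.fst).biUnion (fun h => (g h).image (Prod.mk h)), ?_,
    Finset.subset_union_left⟩
  intro h hh
  have hZ : h ∈ s.image Prod.fst := by
    rw [Finset.mem_union] at hh
    rcases hh with hh | hh
    · exact Finset.mem_image.mpr ⟨_, hh, rfl⟩
    · rw [Finset.mem_biUnion] at hh
      obtain ⟨h', hh', hh2⟩ := hh
      rw [Finset.mem_image] at hh2
      obtain ⟨κ, _, hκ⟩ := hh2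
      rw [Prod.mk.injEq] at hκ
      rwa [hκ.1] at hh'
  have hfil : (fib (s ∪ (s.image Prod.fst).biUnion (fun h => (g h).image (Prod.mk h))) h).filter
      (fun κ => κ ∈ B h) = (fib s h).filter (fun κ => κ ∈ B h) ∪ g h := by
    ext κ
    simp only [Finset.mem_filter, mem_fib, Finset.mem_union, Finset.mem_biUnion]
    constructor
    · rintro ⟨h1 | h1, h2⟩
      · exact Or.inl ⟨h1, h2⟩
      · obtain ⟨h', _, h3⟩ := h1
        rw [Finset.mem_image] at h3
        obtain ⟨κ', hκ', h4⟩ := h3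
        rw [Prod.mk.injEq] at h4
        rw [← h4.1, ← h4.2]
        exact Or.inr hκ'
    · rintro (⟨h1, h2⟩ | h1)
      · exact ⟨Or.inl h1, h2⟩
      · exact ⟨Or.inr ⟨h, hZ, Finset.mem_image.mpr ⟨κ, h1, rfl⟩⟩, (hg h κ h1).1⟩
  rw [hfil, Finset.sum_union, hg2]
  · ring
  · rw [Finset.disjoint_left]
    intro κ hκ hκ'
    exact (hg h κ hκ').2 (Finset.mem_filter.mp hκ).1

omit [NormedAddCommGroup E₁] [NormedSpace ℝ E₁] in
open Classical in
lemma DD_directed (hG : Good θ κ₀ B H) : ∀ d ∈ DD θ κ₀ B, ∀ d' ∈ DD θ κ₀ B,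
    ∃ d'' ∈ DD θ κ₀ B, d ⊆ d'' ∧ d' ⊆ d'' := by
  intro d _ d' _
  obtain ⟨d'', h1, h2⟩ := DD_cofinal hG (d ∪ d')
  exact ⟨d'', h1, (Finset.subset_union_left).trans h2, (Finset.subset_union_right).trans h2⟩

open Classical in
/-- representation of the exceptional vectors -/
lemma dsum_beta (hG : Good θ κ₀ B H) {w : E₁ × K → E₁} (h : E₁) 
    (hB : HasSum ((B h).indicator (fun κ => w (h, κ))) h) :
    DSum (DD θ κ₀ B) (xvec θ w) (fun i => if i.1 = h ∧ i.2 ∈ B h then 1 else 0) (0, h) := by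
  intro ε hε
  obtain ⟨s, hs⟩ := eventually_atTop.mp ((Metric.tendsto_nhds.mp hB) ε hε)
  obtain ⟨d, hd, hsd⟩ := DD_cofinal hG ((insert κ₀ s).image (Prod.mk h))
  refine ⟨d, hd, fun d' hd' hdd => ?_⟩
  have hk0 : (h, κ₀) ∈ d' := hdd (hsd (Finset.mem_image.mpr ⟨κ₀, Finset.mem_insert_self _ _, rfl⟩))
  have hbal := hd' h hk0
  have hsf : s ⊆ fib d' h := by
    intro κ hκ
    rw [mem_fib]
    exact hdd (hsd (Finset.mem_image.mpr ⟨κ, Finset.mem_insert_of_mem hκ, rfl⟩))
  have hnear := hs _ hsf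
  have hsum : ∑ i ∈ d', (if i.1 = h ∧ i.2 ∈ B h then (1:ℝ) else 0) • xvec θ w i =
      ∑ κ ∈ fib d' h, (if κ ∈ B h then (1:ℝ) else 0) • xvec θ w (h, κ) := by
    have e := Finset.sum_preimage (Prod.mk h) d' (Prod.mk_right_injective h).injOn
      (fun i => (if i.1 = h ∧ i.2 ∈ B h then (1:ℝ) else 0) • xvec θ w i) (by
        intro i _ hi
        have : i.1 ≠ h := by
          intro he
          apply hi
          exact ⟨i.2, by rw [← he]⟩
        simp [this])
    rw [← e]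
    apply Finset.sum_congr rfl
    intro κ _
    simp
  have hval : ∑ κ ∈ fib d' h, (if κ ∈ B h then (1:ℝ) else 0) • xvec θ w (h, κ) =
      (0, ∑ κ ∈ fib d' h, (B h).indicator (fun κ => w (h, κ)) κ) := by
    apply Prod.ext
    · rw [Prod.fst_sum]
      simp only [xvec, Prod.smul_mk, smul_eq_mul, ite_mul, one_mul, zero_mul]
      rw [← Finset.sum_filter, ← Int.cast_sum, hbal]
      simp
    · rw [Prod.snd_sum]
      apply Finset.sum_congr rfl
      intro κ _
      simp only [xvec, Prod.smul_mk, indicator]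
      split_ifs <;> simp
  rw [hsum, hval]
  have : ((0 : ℝ), h) - (0, ∑ κ ∈ fib d' h, (B h).indicator (fun κ => w (h, κ)) κ) =
      (0, h - ∑ κ ∈ fib d' h, (B h).indicator (fun κ => w (h, κ)) κ) := by
    simp
  rw [this, Prod.norm_mk, norm_zero, max_eq_right (norm_nonneg _)]
  rwa [dist_eq_norm, norm_sub_rev] at hnear

omit [NormedAddCommGroup E₁] [NormedSpace ℝ E₁] in
open Classical in
/-- adding a set to a member of the family -/
lemma DD_union {d g : Finset (E₁ × K)} (hd : d ∈ DD θ κ₀ B)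
    (hdis : Disjoint d g)
    (h1 : ∀ h, (h, κ₀) ∈ g → ∑ κ ∈ (fib d h).filter (fun κ => κ ∈ B h), θ κ = 0)
    (h2 : ∀ h, (h, κ₀) ∈ d ∪ g → ∑ κ ∈ (fib g h).filter (fun κ => κ ∈ B h), θ κ = 0) :
    d ∪ g ∈ DD θ κ₀ B := by
  intro h hh
  have e1 : ∑ κ ∈ (fib d h).filter (fun κ => κ ∈ B h), θ κ = 0 := by
    rcases Finset.mem_union.mp hh with h3 | h3
    · exact hd h h3
    · exact h1 h h3
  have e2 := h2 h hh
  have hfil : (fib (d ∪ g) h).filter (fun κ => κ ∈ B h) =
      (fib d h).filter (fun κ => κ ∈ B h) ∪ (fib g h).filter (fun κ => κ ∈ B h) := by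
    ext κ
    simp only [Finset.mem_filter, mem_fib, Finset.mem_union]
    tauto
  rw [hfil, Finset.sum_union, e1, e2, add_zero]
  rw [Finset.disjoint_left]
  intro κ hκ hκ'
  rw [Finset.mem_filter, mem_fib] at hκ hκ'
  exact (Finset.disjoint_left.mp hdis hκ.1) hκ'.1

open Classical in
/-- Analysis of null expansions. -/
lemma null_expansion (hG : Good θ κ₀ B H) (w : E₁ × K → E₁) (α : E₁ × K → ℝ)
    (hα : DSum (DD θ κ₀ B) (xvec θ w) α 0) :
    ∃ (Z : Finset E₁) (c : E₁ → ℝ), (∀ h ∈ Z, h ∈ H) ∧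
      Summable (fun i : E₁ × K => (α i - if i.1 ∈ Z ∧ i.2 ∈ B i.1 then c i.1 else 0) * θ i.2) := by
  set a : E₁ × K → ℝ := fun i => α i * θ i.2 with ha
  have step0 : ∀ ε > 0, ∃ d ∈ DD θ κ₀ B, ∀ d' ∈ DD θ κ₀ B, d ⊆ d' → |∑ i ∈ d', a i| < ε := by
    intro ε hε
    obtain ⟨d, hd, h1⟩ := hα ε hε
    refine ⟨d, hd, fun d' hd' hdd => ?_⟩
    have h2 := h1 d' hd' hdd
    have h3 : |∑ i ∈ d', a i| = ‖((0 : ℝ × E₁) - ∑ i ∈ d', α i • xvec θ w i).1‖ := by
      have h4 : (∑ i ∈ d', α i • xvec θ w i).1 = ∑ i ∈ d', a i := by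
        rw [Prod.fst_sum]
        rfl
      rw [zero_sub, Prod.fst_neg, h4, norm_neg, Real.norm_eq_abs]
    rw [h3]
    exact lt_of_le_of_lt (norm_fst_le _) h2
  have step : ∀ ε > 0, ∃ d ∈ DD θ κ₀ B, ∀ g, Disjoint d g → d ∪ g ∈ DD θ κ₀ B →
      |∑ i ∈ g, a i| ≤ ε := by
    intro ε hε
    obtain ⟨d, hd, h1⟩ := step0 (ε / 2) (by linarith)
    refine ⟨d, hd, fun g hdg hg => ?_⟩
    have e1 := h1 d hd (Finset.Subset.refl d)
    have e2 := h1 (d ∪ g) hg Finset.subset_union_left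
    rw [Finset.sum_union hdg] at e2
    have : ∑ i ∈ g, a i = (∑ i ∈ d, a i + ∑ i ∈ g, a i) - ∑ i ∈ d, a i := by ring
    rw [this]
    have := abs_sub (∑ i ∈ d, a i + ∑ i ∈ g, a i) (∑ i ∈ d, a i)
    linarith
  -- fibres
  have hfibre : ∀ h ∈ H, ∃ c : ℝ, Summable ((B h).indicator (fun κ => a (h, κ) - c * θ κ)) := by
    intro h hh
    apply fibre θ (B h) (hG.pos h hh) (hG.neg h hh) (fun κ => a (h, κ))
    intro ε hε
    obtain ⟨d, hd, h1⟩ := step ε hε
    refine ⟨fib d h, fun g hg hg0 => ?_⟩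
    have h2 := h1 (g.image (Prod.mk h)) (by
      rw [Finset.disjoint_left]
      intro i hi hi'
      rw [Finset.mem_image] at hi'
      obtain ⟨κ, hκ, rfl⟩ := hi'
      exact (hg κ hκ).2 ((mem_fib d h κ).mpr hi)) (by
      apply DD_union hd
      · rw [Finset.disjoint_left]
        intro i hi hi'
        rw [Finset.mem_image] at hi'
        obtain ⟨κ, hκ, rfl⟩ := hi'
        exact (hg κ hκ).2 ((mem_fib d h κ).mpr hi)
      · intro h' hh'
        rw [Finset.mem_image] at hh'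
        obtain ⟨κ, hκ, he⟩ := hh'
        rw [Prod.mk.injEq] at he
        exfalso
        apply hG.k0 h
        rw [← he.2]
        exact (hg κ hκ).1
      · intro h' _
        by_cases he : h' = h
        · subst he
          have : (fib (g.image (Prod.mk h')) h').filter (fun κ => κ ∈ B h') = g := by
            ext κ
            simp only [Finset.mem_filter, mem_fib, Finset.mem_image, Prod.mk.injEq, true_and,
              exists_eq_right]
            exact ⟨fun h3 => h3.1, fun h3 => ⟨h3, (hg κ h3).1⟩⟩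
          rw [this, hg0]
        · have : (fib (g.image (Prod.mk h)) h').filter (fun κ => κ ∈ B h') = ∅ := by
            ext κ
            simp only [Finset.mem_filter, mem_fib, Finset.mem_image, Prod.mk.injEq]
            simp [Ne.symm he]
          rw [this, Finset.sum_empty])
    rwa [Finset.sum_image (fun κ _ κ' _ he => (Prod.mk_right_injective h) he)] at h2
  choose! c hc using hfibre
  obtain ⟨d, hd, h1⟩ := step 1 one_pos
  set Zf := d.image Prod.fst with hZf
  set Z := Zf.filter (fun h => h ∈ H) with hZ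
  refine ⟨Z, c, fun h hh => (Finset.mem_filter.mp hh).2, ?_⟩
  set γ : E₁ × K → ℝ := fun i =>
    (α i - if i.1 ∈ Z ∧ i.2 ∈ B i.1 then c i.1 else 0) * θ i.2 with hγ
  set S0 : Set (E₁ × K) := {i | i.1 ∈ Z ∧ i.2 ∈ B i.1} with hS0
  set S1 : Set (E₁ × K) := {i | i ∉ d ∧ i.2 ≠ κ₀ ∧ ¬ (i.1 ∈ Z ∧ i.2 ∈ B i.1)} with hS1
  set S2 : Set (E₁ × K) := {i | i.2 = κ₀ ∧ i.1 ∉ Zf} with hS2
  -- S0
  have s0 : Summable (S0.indicator γ) := by
    have : S0.indicator γ = fun i => ∑ h ∈ Z,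
        (if i.1 = h then (B h).indicator (fun κ => a (h, κ) - c h * θ κ) i.2 else 0) := by
      ext i
      by_cases hi : i.1 ∈ Z
      · rw [Finset.sum_ite_eq Z i.1 (fun h => (B h).indicator (fun κ => a (h, κ) - c h * θ κ) i.2),
          if_pos hi]
        by_cases hi2 : i.2 ∈ B i.1
        · have hmem : i ∈ S0 := ⟨hi, hi2⟩
          rw [indicator_of_mem hmem, indicator_of_mem hi2]
          simp only [hγ, ha, if_pos (show i.1 ∈ Z ∧ i.2 ∈ B i.1 from ⟨hi, hi2⟩)]
          ring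
        · have hmem : i ∉ S0 := fun hc => hi2 hc.2
          rw [indicator_of_notMem hmem, indicator_of_notMem hi2]
      · have hmem : i ∉ S0 := fun hc => hi hc.1
        rw [indicator_of_notMem hmem]
        rw [Finset.sum_ite_eq, if_neg hi]
    rw [this]
    apply summable_sum
    intro h hh
    have hinj := Prod.mk_right_injective (β := K) h
    rw [← hinj.summable_iff]
    · have h2 := hc h (Finset.mem_filter.mp hh).2
      refine h2.congr fun κ => ?_
      simp
    · intro i hi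
      have : i.1 ≠ h := by
        intro he
        exact hi ⟨i.2, by rw [← he]⟩
      simp [this]
  have s1 : Summable (S1.indicator γ) := by
    apply summable_of_bdd _ 1
    intro g
    set g1 := g.filter (fun i => i ∈ S1) with hg1
    have e1 : ∑ i ∈ g, S1.indicator γ i = ∑ i ∈ g1, a i := by
      rw [hg1, Finset.sum_filter]
      apply Finset.sum_congr rfl
      intro i _
      by_cases hi : i ∈ S1
      · rw [indicator_of_mem hi, if_pos hi]
        simp only [hγ, ha]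
        rw [if_neg hi.2.2, sub_zero]
      · rw [indicator_of_notMem hi, if_neg hi]
    rw [e1]
    have hg1m : ∀ i ∈ g1, i ∈ S1 := fun i hi => (Finset.mem_filter.mp hi).2
    have hdis : Disjoint d g1 := by
      rw [Finset.disjoint_left]
      intro i hi hi'
      exact (hg1m i hi').1 hi
    apply h1 g1 hdis
    apply DD_union hd hdis
    · intro h hh
      exact absurd rfl (hg1m _ hh).2.1
    · intro h hh
      have : (fib g1 h).filter (fun κ => κ ∈ B h) = ∅ := by
        ext κ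
        simp only [Finset.mem_filter, mem_fib, Finset.notMem_empty, iff_false, not_and]
        intro hκ hκB
        have h3 := hg1m _ hκ
        apply h3.2.2
        refine ⟨?_, hκB⟩
        rw [Finset.mem_union] at hh
        rcases hh with hh | hh
        · rw [hZ, Finset.mem_filter]
          refine ⟨Finset.mem_image.mpr ⟨_, hh, rfl⟩, ?_⟩
          by_contra hcon
          have := hG.emp h hcon
          rw [this] at hκB
          exact hκB
        · exact absurd rfl (hg1m _ hh).2.1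
      rw [this, Finset.sum_empty]
  have s2 : Summable (S2.indicator γ) := by
    apply summable_of_bdd _ 1
    intro g
    set g1 := g.filter (fun i => i ∈ S2) with hg1
    have e1 : ∑ i ∈ g, S2.indicator γ i = ∑ i ∈ g1, a i := by
      rw [hg1, Finset.sum_filter]
      apply Finset.sum_congr rfl
      intro i _
      by_cases hi : i ∈ S2
      · rw [indicator_of_mem hi, if_pos hi]
        simp only [hγ, ha]
        rw [if_neg, sub_zero]
        intro hcon
        apply hG.k0 i.1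
        rw [← hi.1]
        exact hcon.2
      · rw [indicator_of_notMem hi, if_neg hi]
    rw [e1]
    have hg1m : ∀ i ∈ g1, i ∈ S2 := fun i hi => (Finset.mem_filter.mp hi).2
    have hdis : Disjoint d g1 := by
      rw [Finset.disjoint_left]
      intro i hi hi'
      exact (hg1m i hi').2 (Finset.mem_image.mpr ⟨i, hi, rfl⟩)
    apply h1 g1 hdis
    apply DD_union hd hdis
    · intro h hh
      have h3 := (hg1m _ hh).2
      have : (fib d h).filter (fun κ => κ ∈ B h) = ∅ := by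
        ext κ
        simp only [Finset.mem_filter, mem_fib, Finset.notMem_empty, iff_false, not_and]
        intro hκ
        exact absurd (Finset.mem_image.mpr ⟨_, hκ, rfl⟩) h3
      rw [this, Finset.sum_empty]
    · intro h hh
      have : (fib g1 h).filter (fun κ => κ ∈ B h) = ∅ := by
        ext κ
        simp only [Finset.mem_filter, mem_fib, Finset.notMem_empty, iff_false, not_and]
        intro hκ hκB
        have h3 := (hg1m _ hκ).1
        simp only at h3
        rw [h3] at hκB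
        exact hG.k0 h hκB
      rw [this, Finset.sum_empty]
  have hcof : ∀ᶠ i in cofinite, γ i = S0.indicator γ i + S1.indicator γ i + S2.indicator γ i := by
    have hfin : ((d : Set (E₁ × K)) ∪ (Zf.image (fun h => (h, κ₀)) : Finset (E₁ × K))).Finite :=
      (Finset.finite_toSet _).union (Finset.finite_toSet _)
    filter_upwards [hfin.compl_mem_cofinite] with i hi
    simp only [mem_compl_iff, mem_union, Finset.mem_coe, Finset.mem_image, not_or, not_exists,
      not_and] at hi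
    by_cases h0 : i ∈ S0
    · have n1 : i ∉ S1 := fun hcon => hcon.2.2 h0
      have n2 : i ∉ S2 := by
        intro hcon
        apply hcon.2
        exact (Finset.mem_filter.mp h0.1).1
      rw [indicator_of_mem h0, indicator_of_notMem n1, indicator_of_notMem n2]
      ring
    · by_cases h2 : i.2 = κ₀
      · have m2 : i ∈ S2 := by
          refine ⟨h2, fun hcon => ?_⟩
          apply hi.2 i.1 hcon
          rw [← h2]
        have n1 : i ∉ S1 := fun hcon => hcon.2.1 h2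
        rw [indicator_of_notMem h0, indicator_of_notMem n1, indicator_of_mem m2]
        ring
      · have m1 : i ∈ S1 := ⟨hi.1, h2, h0⟩
        have n2 : i ∉ S2 := fun hcon => h2 hcon.1
        rw [indicator_of_notMem h0, indicator_of_mem m1, indicator_of_notMem n2]
        ring
  exact (summable_congr_cofinite hcof).mpr ((s0.add s1).add s2)

/-- `i ↦ δ i • x i` is summable once `δ i * θ i` is -/
lemma summable_x [CompleteSpace E₁] (w : E₁ × K → E₁) (Cw : ℝ)
    (hw : ∀ i, ‖w i‖ ≤ Cw * |(θ i.2 : ℝ)|) (δ : E₁ × K → ℝ)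
    (hδ : Summable (fun i => δ i * θ i.2)) : Summable (fun i => δ i • xvec θ w i) := by
  apply Summable.of_norm_bounded (g := fun i => (1 + |Cw|) * |δ i * θ i.2|)
    ((hδ.abs).mul_left _)
  intro i
  rw [norm_smul]
  have h1 : ‖xvec θ w i‖ ≤ (1 + |Cw|) * |(θ i.2 : ℝ)| := by
    unfold xvec
    rw [Prod.norm_mk]
    apply max_le
    · rw [Real.norm_eq_abs]
      nlinarith [abs_nonneg (θ i.2 : ℝ), mul_nonneg (abs_nonneg Cw) (abs_nonneg (θ i.2 : ℝ))]
    · refine (hw i).trans ?_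
      have := le_abs_self Cw
      nlinarith [abs_nonneg (θ i.2 : ℝ), mul_le_mul_of_nonneg_right this (abs_nonneg (θ i.2 : ℝ))]
  rw [abs_mul, Real.norm_eq_abs]
  calc |δ i| * ‖xvec θ w i‖ ≤ |δ i| * ((1 + |Cw|) * |(θ i.2 : ℝ)|) := by gcongr
    _ = _ := by ring

/-- the absolutely representable vectors in the hyperplane -/
def MM (θ : K → ℤ) (w : E₁ × K → E₁) : Submodule ℝ E₁ where
  carrier := {m | ∃ δ : E₁ × K → ℝ, Summable (fun i => δ i * θ i.2) ∧
    HasSum (fun i => δ i • xvec θ w i) ((0 : ℝ), m)}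
  zero_mem' := ⟨fun _ => 0, by simp, by
    simp only [zero_smul]
    exact hasSum_zero (α := ℝ × E₁)⟩
  add_mem' := by
    rintro m m' ⟨δ, h1, h2⟩ ⟨δ', h3, h4⟩
    refine ⟨fun i => δ i + δ' i, ?_, ?_⟩
    · simpa only [add_mul] using h1.add h3
    · have := h2.add h4
      simpa only [add_smul, Prod.mk_add_mk, add_zero] using this
  smul_mem' := by
    rintro c m ⟨δ, h1, h2⟩
    refine ⟨fun i => c * δ i, ?_, ?_⟩
    · simpa only [mul_assoc] using h1.mul_left c
    · have := h2.const_smul c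
      simpa only [mul_smul, Prod.smul_mk, smul_zero, smul_eq_mul, mul_zero] using this

open Classical in
/-- The abstract construction of the directed family. -/
theorem condBasis [CompleteSpace E₁] (hκ₀ : θ κ₀ = 1)
    (w : E₁ × K → E₁) (Cw : ℝ) (hw : ∀ i, ‖w i‖ ≤ Cw * |(θ i.2 : ℝ)|)
    (hind : ∀ δ : E₁ × K → ℝ, Summable (fun i => δ i * θ i.2) →
      HasSum (fun i => δ i • xvec θ w i) 0 → δ = 0)
    (hB : ∀ h : E₁, ∃ B : Set K, κ₀ ∉ B ∧ {κ ∈ B | θ κ = 1}.Infinite ∧
      {κ ∈ B | θ κ = -1}.Infinite ∧ HasSum (B.indicator (fun κ => w (h, κ))) h) :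
    ∃ D : Set (Finset (E₁ × K)), (∀ s : Finset (E₁ × K), ∃ d ∈ D, s ⊆ d) ∧
      (∀ d ∈ D, ∀ d' ∈ D, ∃ d'' ∈ D, d ⊆ d'' ∧ d' ⊆ d'') ∧
      IsCondBasis D (xvec θ w) := by
  choose B' hB'0 hB'p hB'n hB's using hB
  obtain ⟨C, hC⟩ := Submodule.exists_isCompl (MM θ w)
  obtain ⟨H, hHC, hspan, hlin⟩ := exists_linearIndependent ℝ (C : Set E₁)
  rw [Submodule.span_eq] at hspan
  set B : E₁ → Set K := fun h => if h ∈ H then B' h else ∅ with hBdef
  have hBH : ∀ h ∈ H, B h = B' h := fun h hh => by simp only [hBdef, if_pos hh]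
  have hG : Good θ κ₀ B H := by
    refine ⟨?_, ?_, ?_, ?_⟩
    · intro h
      by_cases hh : h ∈ H
      · rw [hBH h hh]; exact hB'0 h
      · simp only [hBdef, if_neg hh]; simp
    · intro h hh; rw [hBH h hh]; exact hB'p h
    · intro h hh; rw [hBH h hh]; exact hB'n h
    · intro h hh; simp only [hBdef, if_neg hh]
  have hcof := DD_cofinal hG
  have hdir := DD_directed hG
  refine ⟨DD θ κ₀ B, hcof, hdir, ?_⟩
  -- finite combinations of the exceptional expansions
  have hβ : ∀ (Z : Finset E₁) (c : E₁ → ℝ), (∀ h ∈ Z, h ∈ H) →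
      DSum (DD θ κ₀ B) (xvec θ w)
        (fun i => if i.1 ∈ Z ∧ i.2 ∈ B i.1 then c i.1 else 0) (0, ∑ h ∈ Z, c h • h) := by
    intro Z c hZ
    induction Z using Finset.induction_on with
    | empty =>
      have : DSum (DD θ κ₀ B) (xvec θ w) (fun _ => 0) ((0 : ℝ), (0 : E₁)) := by
        apply HasSum.dsum hcof
        simp only [zero_smul]
        exact hasSum_zero (α := ℝ × E₁)
      simpa using this
    | insert h Z hh ih =>
      have h1 := ih fun h' hh' => hZ h' (Finset.mem_insert_of_mem hh')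
      have hhH := hZ h (Finset.mem_insert_self _ _)
      have h2 := (dsum_beta hG (w := w) h (by rw [hBH h hhH]; exact hB's h)).smul (c h)
      have h3 := h2.add hdir h1
      have e1 : (fun i : E₁ × K => c h * (if i.1 = h ∧ i.2 ∈ B h then 1 else 0) +
          if i.1 ∈ Z ∧ i.2 ∈ B i.1 then c i.1 else 0) =
          (fun i => if i.1 ∈ insert h Z ∧ i.2 ∈ B i.1 then c i.1 else 0) := by
        ext i
        by_cases hi : i.1 = h
        · have hiZ : i.1 ∉ Z := by rw [hi]; exact hh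
          by_cases hiB : i.2 ∈ B h
          · rw [if_pos ⟨hi, hiB⟩, if_neg (fun hcon => hiZ hcon.1),
              if_pos ⟨by rw [hi]; exact Finset.mem_insert_self _ _, by rw [hi]; exact hiB⟩, hi]
            ring
          · rw [if_neg (fun hcon => hiB hcon.2), if_neg (fun hcon => hiZ hcon.1),
              if_neg (fun hcon => hiB (by rw [← hi]; exact hcon.2))]
            ring
        · have h1' : (i.1 ∈ insert h Z) = (i.1 ∈ Z) := by simp [hi]
          rw [if_neg (fun hcon => hi hcon.1), mul_zero, zero_add]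
          simp only [h1']
      have e2 : c h • ((0 : ℝ), h) + (0, ∑ h ∈ Z, c h • h) =
          ((0 : ℝ), ∑ h ∈ insert h Z, c h • h) := by
        rw [Finset.sum_insert hh, Prod.smul_mk, Prod.mk_add_mk]
        simp
      rw [e1, e2] at h3
      exact h3
  -- null expansions vanish
  have hnull : ∀ α : E₁ × K → ℝ, DSum (DD θ κ₀ B) (xvec θ w) α 0 → α = 0 := by
    intro α hα
    obtain ⟨Z, c, hZ, hsum⟩ := null_expansion hG w α hα
    set δ : E₁ × K → ℝ := fun i => α i - if i.1 ∈ Z ∧ i.2 ∈ B i.1 then c i.1 else 0 with hδ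
    obtain ⟨u, hu⟩ := summable_x w Cw hw δ hsum
    have h1 := (HasSum.dsum hcof hu).add hdir (hβ Z c hZ)
    have e1 : (fun i => δ i + if i.1 ∈ Z ∧ i.2 ∈ B i.1 then c i.1 else 0) = α := by
      ext i
      simp only [hδ]
      ring
    rw [e1] at h1
    have h2 := DSum.unique hdir h1 hα
    have hu2 : u = ((0 : ℝ), -∑ h ∈ Z, c h • h) := by
      have h3 := eq_neg_of_add_eq_zero_left h2
      rw [h3, Prod.neg_mk, neg_zero]
    have hM : -∑ h ∈ Z, c h • h ∈ MM θ w := ⟨δ, hsum, by rw [← hu2]; exact hu⟩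
    have hM2 : ∑ h ∈ Z, c h • h ∈ MM θ w := by
      have := (MM θ w).neg_mem hM
      rwa [neg_neg] at this
    have hCm : ∑ h ∈ Z, c h • h ∈ C := C.sum_mem fun h hh => C.smul_mem _ (hHC (hZ h hh))
    have hzero : ∑ h ∈ Z, c h • h = 0 := by
      have := Submodule.disjoint_def.mp hC.disjoint _ hM2 hCm
      exact this
    have hc0 : ∀ h ∈ Z, c h = 0 := by
      have hlin' : LinearIndepOn ℝ id H := hlin
      have h5 := linearIndepOn_iff'.mp hlin' Z c (fun h hh => hZ h hh) (by simpa using hzero)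
      exact h5
    have hδα : δ = α := by
      ext i
      simp only [hδ]
      split_ifs with h6
      · rw [hc0 _ h6.1, sub_zero]
      · rw [sub_zero]
    have hsum' : Summable (fun i => δ i * θ i.2) := hsum
    rw [hδα] at hu hsum'
    apply hind α hsum'
    rw [hzero, neg_zero] at hu2
    rw [hu2] at hu
    exact hu
  intro v
  -- existence
  have hex : ∃ α : E₁ × K → ℝ, DSum (DD θ κ₀ B) (xvec θ w) α v := by
    obtain ⟨r, u⟩ := v
    set i₀ : E₁ × K := (0, κ₀) with hi₀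
    have h1 : u - r • w i₀ ∈ (MM θ w) ⊔ C := by
      rw [hC.sup_eq_top]; exact Submodule.mem_top
    obtain ⟨m, hm, c, hc, hmc⟩ := Submodule.mem_sup.mp h1
    obtain ⟨δ, hδ1, hδ2⟩ := hm
    rw [← hspan] at hc
    obtain ⟨f, hf1, hf2⟩ := (Submodule.mem_span_set (R := ℝ)).mp hc
    have hf3 : ∑ h ∈ f.support, f h • h = c := hf2
    have d1 := HasSum.dsum hcof hδ2
    have d2 := hβ f.support f (fun h hh => hf1 hh)
    have d3 : DSum (DD θ κ₀ B) (xvec θ w) (fun i => if i = i₀ then r else 0)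
        (r • xvec θ w i₀) := by
      apply HasSum.dsum hcof
      have h5 := hasSum_ite_eq i₀ (r • xvec θ w i₀)
      have e : (fun i => (if i = i₀ then r else 0) • xvec θ w i) =
          fun i => if i = i₀ then r • xvec θ w i₀ else 0 := by
        ext1 i
        split_ifs with h
        · rw [h]
        · rw [zero_smul]
      rw [e]
      exact h5
    have d4 := (d1.add hdir d2).add hdir d3
    have e5 : ((0 : ℝ), m) + ((0 : ℝ), ∑ h ∈ f.support, f h • h) + r • xvec θ w i₀ = (r, u) := by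
      rw [hf3]
      unfold xvec
      simp only [Prod.smul_mk, Prod.mk_add_mk, hi₀, hκ₀]
      apply Prod.ext
      · simp
      · simp only
        rw [hmc]
        abel
    rw [e5] at d4
    exact ⟨_, d4⟩
  obtain ⟨α, hα⟩ := hex
  refine ⟨α, hα, fun β hβ' => ?_⟩
  have h1 := hβ'.add hdir (hα.smul (-1))
  have h2 : v + (-1 : ℝ) • v = 0 := by simp
  rw [h2] at h1
  have h3 := hnull _ h1
  ext i
  have := congrFun h3 i
  simp only [Pi.zero_apply] at this
  linarith

end abstract_part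

/-! ### The concrete part -/
section concrete

open scoped ENNReal

/-- `ℓ₁(ℕ × ℤ)` -/
abbrev L1 : Type := lp (fun _ : ℕ × ℤ => ℝ) 1

lemma L1_norm (u : L1) : ‖u‖ = ∑' s, |u s| := by
  have h := lp.norm_eq_tsum_rpow (p := 1) (by norm_num) u
  rw [h]
  simp

lemma L1_abs_le (u : L1) (s : ℕ × ℤ) : |u s| ≤ ‖u‖ := by
  have := lp.norm_apply_le_norm (p := 1) (by norm_num) u s
  simpa using this

lemma vv_hasSum (t : ℝ) : HasSum (fun s : ℕ × ℤ => if s.2 = ⌊(s.1 : ℝ) * t⌋ then (1 / 2 : ℝ) ^ s.1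
    else 0) 2 := by
  have hinj : Function.Injective (fun k : ℕ => ((k, ⌊(k : ℝ) * t⌋) : ℕ × ℤ)) := by
    intro a b hab
    exact (Prod.mk.inj hab).1
  rw [← hinj.hasSum_iff]
  · have := hasSum_geometric_two
    convert this using 1
    ext k
    simp
  · rintro ⟨k, m⟩ hkm
    simp only
    rw [if_neg]
    intro h
    exact hkm ⟨k, by rw [h]⟩

/-- the vector `v_t` of the almost disjoint family -/
noncomputable def vv (t : ℝ) : L1 :=
  ⟨fun s : ℕ × ℤ => if s.2 = ⌊(s.1 : ℝ) * t⌋ then (1 / 2 : ℝ) ^ s.1 else 0, by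
    apply memℓp_gen
    have h := (vv_hasSum t).summable.abs
    simpa using h⟩

lemma vv_apply (t : ℝ) (s : ℕ × ℤ) : vv t s =
    if s.2 = ⌊(s.1 : ℝ) * t⌋ then (1 / 2 : ℝ) ^ s.1 else 0 := rfl

lemma vv_norm (t : ℝ) : ‖vv t‖ = 2 := by
  rw [L1_norm]
  have : (fun s => |vv t s|) = fun s : ℕ × ℤ => if s.2 = ⌊(s.1 : ℝ) * t⌋ then (1 / 2 : ℝ) ^ s.1
    else 0 := by
    ext s
    rw [vv_apply]
    split_ifs
    · exact abs_of_nonneg (by positivity)
    · simp
  rw [this]
  exact (vv_hasSum t).tsum_eq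

/-- the second index set -/
structure Idx where
  y : L1
  th : ℤ
  n : ℕ
  fin : {s : ℕ × ℤ | y s ≠ 0}.Finite
  ne : th ≠ 0
  bdd : ∀ s : ℕ × ℤ, 2 ^ s.1 * |y s| ≤ |(th : ℝ)|
  nrm : ‖y‖ ≤ |(th : ℝ)|

lemma Idx.ext' {a b : Idx} (h1 : a.y = b.y) (h2 : a.th = b.th) (h3 : a.n = b.n) : a = b := by
  cases a; cases b; simp_all

lemma exists_emb : Nonempty (L1 × Idx ↪ ℝ) := by
  have h1 : Nonempty (L1 × Idx ↪ (ℕ × ℤ → ℝ) × (ℕ × ℤ → ℝ) × ℤ × ℕ) :=
    ⟨⟨fun p => (fun s => p.1 s, fun s => p.2.y s, p.2.th, p.2.n), by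
      rintro ⟨a, b⟩ ⟨c, d⟩ h
      simp only [Prod.mk.injEq] at h
      obtain ⟨h1, h2, h3, h4⟩ := h
      have e1 : a = c := lp.ext h1
      have e2 : b.y = d.y := lp.ext h2
      rw [e1, Idx.ext' e2 h3 h4]⟩⟩
  have h2 : Nonempty ((ℕ × ℤ → ℝ) × (ℕ × ℤ → ℝ) × ℤ × ℕ ↪ ℝ) := by
    rw [← Cardinal.le_def]
    simp only [Cardinal.mk_prod, Cardinal.lift_id, Cardinal.mk_pi, Cardinal.prod_const,
      Cardinal.mk_real, Cardinal.mk_int, Cardinal.mk_nat,
      Cardinal.aleph0_mul_aleph0, Cardinal.continuum_power_aleph0, Cardinal.continuum_mul_aleph0,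
      Cardinal.continuum_mul_self, le_refl]
  exact ⟨h1.some.trans h2.some⟩

/-- the labelling of the indices by reals -/
noncomputable def tau : L1 × Idx ↪ ℝ := exists_emb.some

/-- second coordinate of the basis vectors -/
noncomputable def ww (i : L1 × Idx) : L1 := i.2.y + ((1 / 2 : ℝ) ^ i.2.n) • vv (tau i)

lemma one_le_abs (κ : Idx) : (1 : ℝ) ≤ |(κ.th : ℝ)| := by
  have := Int.one_le_abs κ.ne
  exact_mod_cast this

lemma ww_norm (i : L1 × Idx) : ‖ww i‖ ≤ 3 * |(i.2.th : ℝ)| := by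
  unfold ww
  have h1 := norm_add_le i.2.y (((1 / 2 : ℝ) ^ i.2.n) • vv (tau i))
  rw [norm_smul, vv_norm, Real.norm_eq_abs, abs_of_nonneg (by positivity)] at h1
  have h2 : (1 / 2 : ℝ) ^ i.2.n ≤ 1 := pow_le_one₀ (by norm_num) (by norm_num)
  have h3 := i.2.nrm
  have h4 := one_le_abs i.2
  linarith


lemma floor_sep {t t' : ℝ} (h : t ≠ t') :
    ∀ᶠ k : ℕ in atTop, ⌊(k : ℝ) * t⌋ ≠ ⌊(k : ℝ) * t'⌋ := by
  have hpos : 0 < |t - t'| := abs_pos.mpr (sub_ne_zero.mpr h)
  obtain ⟨N, hN⟩ := exists_nat_gt (1 / |t - t'|)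
  filter_upwards [eventually_ge_atTop N] with k hk hfl
  have h1 := Int.abs_sub_lt_one_of_floor_eq_floor hfl
  rw [← mul_sub, abs_mul, Nat.abs_cast] at h1
  have h2 : (N : ℝ) ≤ k := by exact_mod_cast hk
  rw [div_lt_iff₀ hpos] at hN
  nlinarith

lemma fin_vanish (κ : Idx) (t : ℝ) : ∀ᶠ k : ℕ in atTop, κ.y (k, ⌊(k : ℝ) * t⌋) = 0 := by
  have h1 : {k : ℕ | κ.y (k, ⌊(k : ℝ) * t⌋) ≠ 0}.Finite := by
    have : (Prod.fst '' {s : ℕ × ℤ | κ.y s ≠ 0}).Finite := κ.fin.image _
    refine this.subset ?_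
    intro k hk
    exact ⟨(k, ⌊(k : ℝ) * t⌋), hk, rfl⟩
  have h2 := h1.compl_mem_cofinite
  rw [Nat.cofinite_eq_atTop] at h2
  filter_upwards [h2] with k hk
  simpa using hk

/-- Independence under absolute summability. -/
lemma indep (δ : L1 × Idx → ℝ) (hs : Summable (fun i => δ i * (i.2.th : ℝ)))
    (h0 : HasSum (fun i => δ i • xvec Idx.th ww i) 0) : δ = 0 := by
  classical
  funext i₀
  set t := tau i₀ with ht
  set F : ℕ → L1 × Idx → ℝ := fun k i => δ i * (2 ^ k * ww i (k, ⌊(k : ℝ) * t⌋)) with hF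
  have hww : ∀ (k : ℕ) (i : L1 × Idx), 2 ^ k * ww i (k, ⌊(k : ℝ) * t⌋) =
      2 ^ k * i.2.y (k, ⌊(k : ℝ) * t⌋) +
      (1 / 2 : ℝ) ^ i.2.n * (if ⌊(k : ℝ) * t⌋ = ⌊(k : ℝ) * tau i⌋ then 1 else 0) := by
    intro k i
    have h1 : ww i (k, ⌊(k : ℝ) * t⌋) = i.2.y (k, ⌊(k : ℝ) * t⌋) +
        (1 / 2 : ℝ) ^ i.2.n * vv (tau i) (k, ⌊(k : ℝ) * t⌋) := rfl
    rw [h1, vv_apply]
    simp only
    have h2 : (2 : ℝ) ^ k * (1 / 2 : ℝ) ^ k = 1 := by
      rw [← mul_pow]; norm_num
    split_ifs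
    · linear_combination ((1 / 2 : ℝ) ^ i.2.n) * h2
    · ring
  have hΛ : ∀ k : ℕ, HasSum (F k) 0 := by
    intro k
    have h1 : HasSum (fun i => δ i • ww i) 0 := by
      have h := (ContinuousLinearMap.snd ℝ ℝ L1).hasSum h0
      simpa [xvec] using h
    have h2 := (lp.evalCLM ℝ (fun _ : ℕ × ℤ => ℝ) 1 (k, ⌊(k : ℝ) * t⌋)).hasSum h1
    have h3 := h2.mul_left ((2 : ℝ) ^ k)
    rw [map_zero, mul_zero] at h3
    have h4 : F k = fun i => (2 : ℝ) ^ k *
        (lp.evalCLM ℝ (fun _ : ℕ × ℤ => ℝ) 1 (k, ⌊(k : ℝ) * t⌋)) (δ i • ww i) := by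
      funext i
      have : (lp.evalCLM ℝ (fun _ : ℕ × ℤ => ℝ) 1 (k, ⌊(k : ℝ) * t⌋)) (δ i • ww i) =
        δ i * ww i (k, ⌊(k : ℝ) * t⌋) := rfl
      rw [this]
      simp only [hF]
      ring
    rw [h4]
    exact h3
  have hlim : ∀ i, Tendsto (fun k => F k i) atTop
      (𝓝 (if i = i₀ then δ i₀ * (1 / 2 : ℝ) ^ i₀.2.n else 0)) := by
    intro i
    have e1 := fin_vanish i.2 t
    split_ifs with hi
    · subst hi
      apply tendsto_const_nhds.congr'
      filter_upwards [e1] with k hk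
      simp only [hF]
      rw [hww, hk, if_pos rfl]
      ring
    · have e2 : ∀ᶠ k : ℕ in atTop, ⌊(k : ℝ) * t⌋ ≠ ⌊(k : ℝ) * tau i⌋ := by
        apply floor_sep
        intro hcon
        exact hi (tau.injective hcon).symm
      apply tendsto_const_nhds.congr'
      filter_upwards [e1, e2] with k hk hk2
      simp only [hF]
      rw [hww, hk, if_neg hk2]
      ring
  have hbound : ∀ k i, ‖F k i‖ ≤ 2 * |δ i * (i.2.th : ℝ)| := by
    intro k i
    simp only [hF]
    rw [Real.norm_eq_abs, abs_mul, hww, abs_mul (δ i) (i.2.th : ℝ)]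
    have h1 : |2 ^ k * i.2.y (k, ⌊(k : ℝ) * t⌋) +
      (1 / 2 : ℝ) ^ i.2.n * (if ⌊(k : ℝ) * t⌋ = ⌊(k : ℝ) * tau i⌋ then 1 else 0)| ≤
        2 * |(i.2.th : ℝ)| := by
      refine (abs_add_le _ _).trans ?_
      have h2 := i.2.bdd (k, ⌊(k : ℝ) * t⌋)
      have h3 : |(1 / 2 : ℝ) ^ i.2.n *
          (if ⌊(k : ℝ) * t⌋ = ⌊(k : ℝ) * tau i⌋ then 1 else 0)| ≤ 1 := by
        rw [abs_mul, abs_of_nonneg (by positivity : (0 : ℝ) ≤ (1 / 2 : ℝ) ^ i.2.n)]
        have h4 : (1 / 2 : ℝ) ^ i.2.n ≤ 1 := pow_le_one₀ (by norm_num) (by norm_num)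
        split_ifs
        · simpa using h4
        · simp
      have h5 := one_le_abs i.2
      rw [abs_mul, abs_of_nonneg (by positivity : (0 : ℝ) ≤ 2 ^ k)]
      simp only at h2
      linarith
    have := mul_le_mul_of_nonneg_left h1 (abs_nonneg (δ i))
    linarith
  have hdom := tendsto_tsum_of_dominated_convergence (𝓕 := atTop) (f := F)
    (g := fun i => if i = i₀ then δ i₀ * (1 / 2 : ℝ) ^ i₀.2.n else 0)
    (bound := fun i => 2 * |δ i * (i.2.th : ℝ)|) (hs.abs.mul_left 2) hlim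
    (Eventually.of_forall hbound)
  rw [tsum_ite_eq] at hdom
  have hz : (fun k => ∑' i, F k i) = fun _ => 0 := by
    ext k
    exact (hΛ k).tsum_eq
  rw [hz] at hdom
  have h1 := tendsto_nhds_unique tendsto_const_nhds hdom
  have h2 : (1 / 2 : ℝ) ^ i₀.2.n ≠ 0 := by positivity
  rcases mul_eq_zero.mp h1.symm with h3 | h3
  · exact h3
  · exact absurd h3 h2


/-- finitely supported approximations -/
lemma approx (u : L1) (ε : ℝ) (hε : 0 < ε) :
    ∃ y : L1, {s : ℕ × ℤ | y s ≠ 0}.Finite ∧ ‖u - y‖ ≤ ε := by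
  classical
  have h := lp.hasSum_single (p := 1) (by norm_num) u
  have h1 := (Metric.tendsto_nhds.mp h) ε hε
  obtain ⟨s, hs⟩ := h1.exists
  refine ⟨∑ i ∈ s, lp.single 1 i (u i), ?_, ?_⟩
  · apply s.finite_toSet.subset
    intro j hj
    by_contra hjs
    apply hj
    have h2 : (lp.evalCLM ℝ (fun _ : ℕ × ℤ => ℝ) 1 j) (∑ i ∈ s, lp.single 1 i (u i)) = 0 := by
      rw [map_sum]
      apply Finset.sum_eq_zero
      intro i hi
      have hne : j ≠ i := by
        rintro rfl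
        exact hjs hi
      exact lp.single_apply_ne (E := fun _ : ℕ × ℤ => ℝ) 1 i (u i) hne
    exact h2
  · rw [← dist_eq_norm, dist_comm]
    exact hs.le

lemma nextIdx (u : L1) (i : ℕ) :
    ∃ κ : Idx, 2 ≤ κ.th ∧ κ.n = i + 1 ∧ ‖u - κ.y‖ ≤ (1 / 2 : ℝ) ^ i := by
  obtain ⟨y, hy, hu⟩ := approx u ((1 / 2 : ℝ) ^ i) (by positivity)
  obtain ⟨M, hM⟩ : ∃ M : ℝ, ∀ s : ℕ × ℤ, 2 ^ s.1 * |y s| ≤ M := by
    have h1 : ((fun s : ℕ × ℤ => 2 ^ s.1 * |y s|) '' {s : ℕ × ℤ | y s ≠ 0}).Finite := hy.image _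
    obtain ⟨M, hM⟩ := h1.bddAbove
    refine ⟨max M 0, fun s => ?_⟩
    by_cases hs : y s = 0
    · rw [hs, abs_zero, mul_zero]
      exact le_max_right _ _
    · exact (hM ⟨s, hs, rfl⟩).trans (le_max_left _ _)
  obtain ⟨N, hN⟩ := exists_nat_ge (max (max M ‖y‖) 2)
  have h1 : M ≤ N := ((le_max_left _ _).trans (le_max_left _ _)).trans hN
  have h2 : ‖y‖ ≤ N := ((le_max_right _ _).trans (le_max_left _ _)).trans hN
  have h3 : (2 : ℝ) ≤ N := (le_max_right _ _).trans hN
  have h4 : 2 ≤ N := by exact_mod_cast h3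
  have h5 : |((N : ℤ) : ℝ)| = N := by
    rw [Int.cast_natCast]
    exact abs_of_nonneg (Nat.cast_nonneg N)
  refine ⟨⟨y, N, i + 1, hy, by omega, ?_, ?_⟩, ?_, rfl, hu⟩
  · intro s
    rw [h5]
    exact (hM s).trans h1
  · rw [h5]
    exact h2
  · change (2 : ℤ) ≤ (N : ℤ)
    exact_mod_cast h4

lemma correction (h h' : L1) : ∃ κ : ℕ → Idx, (∀ i, 2 ≤ (κ i).th) ∧ (∀ i, (κ i).n = i + 1) ∧
    HasSum (fun i => ww (h, κ i)) h' := by
  choose nx h1 h2 h3 using nextIdx
  let u : ℕ → L1 := fun n => Nat.rec h' (fun i ui => ui - ww (h, nx ui i)) n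
  have hu0 : u 0 = h' := rfl
  have hus : ∀ i, u (i + 1) = u i - ww (h, nx (u i) i) := fun i => rfl
  clear_value u
  refine ⟨fun i => nx (u i) i, fun i => h1 _ _, fun i => h2 _ _, ?_⟩
  have hb1 : ∀ i, ‖u (i + 1)‖ ≤ 2 * (1 / 2 : ℝ) ^ i := by
    intro i
    rw [hus]
    have : u i - ww (h, nx (u i) i) = (u i - (nx (u i) i).y) -
        ((1 / 2 : ℝ) ^ (i + 1)) • vv (tau (h, nx (u i) i)) := by
      unfold ww
      rw [h2]
      abel
    rw [this]
    refine (norm_sub_le _ _).trans ?_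
    rw [norm_smul, vv_norm, Real.norm_eq_abs, abs_of_nonneg (by positivity)]
    have := h3 (u i) i
    rw [pow_succ]
    linarith
  have hb : ∀ i, ‖u i‖ ≤ (‖h'‖ + 4) * (1 / 2 : ℝ) ^ i := by
    intro i
    cases i with
    | zero =>
      rw [hu0, pow_zero, mul_one]
      linarith
    | succ i =>
      refine (hb1 i).trans ?_
      rw [pow_succ]
      have := norm_nonneg h'
      have h4 : (0 : ℝ) ≤ (1 / 2 : ℝ) ^ i := by positivity
      nlinarith
  have hgeo : Tendsto (fun i : ℕ => (‖h'‖ + 4) * (1 / 2 : ℝ) ^ i) atTop (𝓝 0) := by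
    have := (tendsto_pow_atTop_nhds_zero_of_lt_one (r := (1 / 2 : ℝ)) (by norm_num)
      (by norm_num)).const_mul (‖h'‖ + 4)
    simpa using this
  have hlim : Tendsto u atTop (𝓝 0) := squeeze_zero_norm hb hgeo
  have hwu : ∀ i, ww (h, nx (u i) i) = u i - u (i + 1) := by
    intro i
    rw [hus]
    abel
  have hsn : Summable (fun i => ‖ww (h, nx (u i) i)‖) := by
    apply Summable.of_nonneg_of_le (fun _ => norm_nonneg _) (f := fun i =>
      (2 * (‖h'‖ + 4)) * (1 / 2 : ℝ) ^ i)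
    · intro i
      rw [hwu]
      refine (norm_sub_le _ _).trans ?_
      have e1 := hb i
      have e2 := hb (i + 1)
      rw [pow_succ] at e2
      have := norm_nonneg h'
      have h4 : (0 : ℝ) ≤ (1 / 2 : ℝ) ^ i := by positivity
      nlinarith
    · exact summable_geometric_two.mul_left _
  rw [hasSum_iff_tendsto_nat_of_summable_norm hsn]
  have hpart : ∀ n, ∑ i ∈ Finset.range n, ww (h, nx (u i) i) = h' - u n := by
    intro n
    induction n with
    | zero => simp [hu0]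
    | succ n ih => rw [Finset.sum_range_succ, ih, hwu]; abel
  simp only [hpart]
  simpa using hlim.const_sub h'

/-- the balancing elements -/
noncomputable def bb (p : Bool × ℕ) : Idx where
  y := 0
  th := if p.1 then 1 else -1
  n := p.2 + 1
  fin := by simp
  ne := by split_ifs <;> norm_num
  bdd := by intro s; simp
  nrm := by simp

/-- the marker -/
noncomputable def kap0 : Idx where
  y := 0
  th := 1
  n := 0
  fin := by simp
  ne := by norm_num
  bdd := by intro s; simp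
  nrm := by simp

lemma bb_inj : Function.Injective bb := by
  rintro ⟨a, n⟩ ⟨b, m⟩ hab
  have h1 := congrArg Idx.th hab
  have h2 := congrArg Idx.n hab
  simp only [bb] at h1 h2
  have h3 : n = m := by omega
  rw [h3]
  cases a <;> cases b <;> simp_all

lemma bb_summable (h : L1) : Summable (fun p => ww (h, bb p)) := by
  have h1 : Summable (fun p : Bool × ℕ => (1 : ℝ) * (1 / 2 : ℝ) ^ p.2) :=
    Summable.mul_of_nonneg (f := fun _ : Bool => (1 : ℝ)) (g := fun n : ℕ => (1 / 2 : ℝ) ^ n)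
      (Summable.of_finite) summable_geometric_two (fun _ => zero_le_one) (fun n => by positivity)
  apply Summable.of_norm_bounded h1
  intro p
  have : ww (h, bb p) = ((1 / 2 : ℝ) ^ (p.2 + 1)) • vv (tau (h, bb p)) := by
    unfold ww
    simp [bb]
  rw [this, norm_smul, vv_norm, Real.norm_eq_abs, abs_of_nonneg (by positivity), pow_succ]
  linarith

lemma exists_B (h : L1) : ∃ B : Set Idx, kap0 ∉ B ∧ {κ ∈ B | κ.th = 1}.Infinite ∧
    {κ ∈ B | κ.th = -1}.Infinite ∧ HasSum (B.indicator (fun κ => ww (h, κ))) h := by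
  obtain ⟨b, hb⟩ := bb_summable h
  obtain ⟨κ, hκ1, hκ2, hκ3⟩ := correction h (h - b)
  have hκinj : Function.Injective κ := fun i j hij => by
    have := congrArg Idx.n hij
    rw [hκ2, hκ2] at this
    omega
  refine ⟨range bb ∪ range κ, ?_, ?_, ?_, ?_⟩
  · rintro (⟨p, hp⟩ | ⟨i, hi⟩)
    · have := congrArg Idx.n hp
      simp [bb, kap0] at this
    · have := hκ1 i
      rw [hi] at this
      simp [kap0] at this
  · apply Set.infinite_of_injective_forall_mem (f := fun n : ℕ => bb (true, n))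
    · intro n m hnm
      exact (Prod.mk.inj (bb_inj hnm)).2
    · intro n
      exact ⟨Or.inl ⟨_, rfl⟩, by simp [bb]⟩
  · apply Set.infinite_of_injective_forall_mem (f := fun n : ℕ => bb (false, n))
    · intro n m hnm
      exact (Prod.mk.inj (bb_inj hnm)).2
    · intro n
      exact ⟨Or.inl ⟨_, rfl⟩, by simp [bb]⟩
  · have hd : Disjoint (range bb) (range κ) := by
      rw [Set.disjoint_left]
      rintro _ ⟨p, rfl⟩ ⟨i, hi⟩
      have h1 := hκ1 i
      rw [hi] at h1
      simp only [bb] at h1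
      split_ifs at h1 <;> omega
    rw [Set.indicator_union_of_disjoint hd]
    have h1 : HasSum ((range bb).indicator (fun κ => ww (h, κ))) b := by
      have e := (bb_inj.hasSum_range_iff (f := fun κ => ww (h, κ)) (a := b)).mpr hb
      exact hasSum_subtype_iff_indicator.mp e
    have h2 : HasSum ((range κ).indicator (fun κ => ww (h, κ))) (h - b) := by
      have e := (hκinj.hasSum_range_iff (f := fun κ => ww (h, κ)) (a := h - b)).mpr hκ3
      exact hasSum_subtype_iff_indicator.mp e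
    have h3 := h1.add h2
    rw [add_sub_cancel] at h3
    exact h3

/-- the indices approaching `(1, 0)` -/
noncomputable def mm (n : ℕ) : L1 × Idx :=
  (0, { y := 0, th := 1, n := n, fin := by simp, ne := by norm_num,
        bdd := by intro s; simp, nrm := by simp })

lemma mm_lim : Tendsto (fun n => xvec Idx.th ww (mm n)) atTop (𝓝 ((1 : ℝ), (0 : L1))) := by
  have h1 : Tendsto (fun n => ww (mm n)) atTop (𝓝 0) := by
    apply squeeze_zero_norm (a := fun n : ℕ => 2 * (1 / 2 : ℝ) ^ n)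
    · intro n
      have : ww (mm n) = ((1 / 2 : ℝ) ^ n) • vv (tau (mm n)) := by
        unfold ww
        simp [mm]
      rw [this, norm_smul, vv_norm, Real.norm_eq_abs, abs_of_nonneg (by positivity)]
      linarith
    · have := (tendsto_pow_atTop_nhds_zero_of_lt_one (r := (1 / 2 : ℝ)) (by norm_num)
        (by norm_num)).const_mul 2
      simpa using this
  have h2 : Tendsto (fun n : ℕ => (((mm n).2.th : ℤ) : ℝ)) atTop (𝓝 1) := by
    have : (fun n : ℕ => (((mm n).2.th : ℤ) : ℝ)) = fun _ => 1 := by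
      funext n
      simp [mm]
    rw [this]
    exact tendsto_const_nhds
  exact h2.prodMk_nhds h1

/-- Negative answer to Fremlin's question: there are a set `I`, a family `D` of finite subsets of
`I` covering `I` and directed upwards, a real Banach space `E` and an `(I, D)`-conditional basis of
`E` one of whose coefficient functionals is discontinuous. (Here `E = ℝ × ℓ₁(ℕ × ℤ)`.) -/
theorem main : ∃ (I : Type) (D : Set (Finset I)),
    (⋃ d ∈ D, (d : Set I)) = univ ∧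
    (∀ d ∈ D, ∀ d' ∈ D, ∃ d'' ∈ D, (d : Set I) ∪ (d' : Set I) ⊆ (d'' : Set I)) ∧
    ∃ (E : Type) (_ : NormedAddCommGroup E) (_ : NormedSpace ℝ E) (_ : CompleteSpace E)
      (x : I → E), IsCondBasis D x ∧
      ∃ (i : I) (f : E → ℝ), (∀ v α, DSum D x α v → f v = α i) ∧ ¬ Continuous f := by
  classical
  obtain ⟨D, hcof, hdir, hbas⟩ := condBasis (θ := Idx.th) (κ₀ := kap0) rfl ww 3 ww_norm indep
    exists_B
  refine ⟨L1 × Idx, D, ?_, ?_, ℝ × L1, inferInstance, inferInstance, inferInstance,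
    xvec Idx.th ww, hbas, ?_⟩
  · rw [Set.eq_univ_iff_forall]
    intro i
    obtain ⟨d, hd, hid⟩ := hcof {i}
    simp only [Set.mem_iUnion]
    exact ⟨d, hd, hid (Finset.mem_singleton_self i)⟩
  · intro d hd d' hd'
    obtain ⟨d'', h1, h2, h3⟩ := hdir d hd d' hd'
    exact ⟨d'', h1, Set.union_subset (Finset.coe_subset.mpr h2) (Finset.coe_subset.mpr h3)⟩
  · choose α hα using fun v => (hbas v).exists
    have huniq : ∀ v β, DSum D (xvec Idx.th ww) β v → β = α v := fun v β hβ =>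
      (hbas v).unique hβ (hα v)
    by_contra hcon
    push Not at hcon
    have hcont : ∀ i, Continuous (fun v => α v i) := by
      intro i
      apply hcon i
      intro v β hβ
      rw [huniq v β hβ]
    -- expansions of the basis vectors
    have hx : ∀ j, α (xvec Idx.th ww j) = fun i => if i = j then 1 else 0 := by
      intro j
      symm
      apply huniq
      apply HasSum.dsum hcof
      have h5 := hasSum_ite_eq j (xvec Idx.th ww j)
      have e : (fun i => (if i = j then (1 : ℝ) else 0) • xvec Idx.th ww i) =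
          fun i => if i = j then xvec Idx.th ww j else 0 := by
        funext i
        split_ifs with h
        · rw [h, one_smul]
        · rw [zero_smul]
      rw [e]
      exact h5
    have hz : α ((1 : ℝ), (0 : L1)) = 0 := by
      funext i
      have h1 := ((hcont i).tendsto ((1 : ℝ), (0 : L1))).comp mm_lim
      have h2 : Tendsto ((fun v => α v i) ∘ fun n => xvec Idx.th ww (mm n)) atTop (𝓝 0) := by
        apply tendsto_const_nhds.congr'
        filter_upwards [eventually_gt_atTop i.2.n] with n hn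
        have hne : i ≠ mm n := by
          intro hcon
          rw [hcon] at hn
          simp [mm] at hn
        have e := congrFun (hx (mm n)) i
        simp only [if_neg hne] at e
        exact e.symm
      exact tendsto_nhds_unique h1 h2
    have h3 := hα ((1 : ℝ), (0 : L1))
    rw [hz] at h3
    obtain ⟨d, hd, h4⟩ := h3 1 one_pos
    have h5 := h4 d hd (Finset.Subset.refl d)
    simp only [Pi.zero_apply, zero_smul, Finset.sum_const_zero, sub_zero] at h5
    rw [Prod.norm_mk, norm_zero, norm_one] at h5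
    norm_num at h5

end concrete

end Pool.Agent.Helper80.E67678
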